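import Pool.Agent.Helper14.FO.Defs

/-! MP_190084_co: module KRW. -/

set_option autoImplicit false

namespace Pool.Agent.Helper14.FO

open Finset

/-- parity character of the intersection with `S` -/
theorem krw_insert {N : ℕ} (S T : Finset (Fin N)) (x : Fin N) (hx : x ∉ T) :
    (-1 : ℝ) ^ (S ∩ insert x T).card = (if x ∈ S then -1 else 1) * (-1 : ℝ) ^ (S ∩ T).card := by
  by_cases h : x ∈ S
  · rw [if_pos h, Finset.inter_insert_of_mem h, Finset.card_insert_of_notMem (by simp [hx]),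
      pow_succ]
    ring
  · rw [if_neg h, Finset.inter_insert_of_notMem h, one_mul]

/-- the swap of two elements acting on finite sets -/
def krwSw {N : ℕ} (a b : Fin N) (T : Finset (Fin N)) : Finset (Fin N) :=
  T.map (Equiv.swap a b).toEmbedding

theorem krw_mem {N : ℕ} (a b : Fin N) (T : Finset (Fin N)) (x : Fin N) :
    x ∈ krwSw a b T ↔ Equiv.swap a b x ∈ T := by
  unfold krwSw
  rw [Finset.mem_map_equiv, Equiv.symm_swap]

theorem krw_card {N : ℕ} (a b : Fin N) (T : Finset (Fin N)) : (krwSw a b T).card = T.card := by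
  unfold krwSw
  rw [Finset.card_map]

theorem krw_inv {N : ℕ} (a b : Fin N) (T : Finset (Fin N)) : krwSw a b (krwSw a b T) = T := by
  ext x
  rw [krw_mem, krw_mem, Equiv.swap_apply_self]

theorem krw_a {N : ℕ} (a b : Fin N) (T : Finset (Fin N)) : a ∈ krwSw a b T ↔ b ∈ T := by
  rw [krw_mem, Equiv.swap_apply_left]

theorem krw_b {N : ℕ} (a b : Fin N) (T : Finset (Fin N)) : b ∈ krwSw a b T ↔ a ∈ T := by
  rw [krw_mem, Equiv.swap_apply_right]

theorem krw_o {N : ℕ} (a b : Fin N) (T : Finset (Fin N)) (x : Fin N) (ha : x ≠ a) (hb : x ≠ b) :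
    x ∈ krwSw a b T ↔ x ∈ T := by
  rw [krw_mem, Equiv.swap_apply_of_ne_of_ne ha hb]

theorem krw_flip {N : ℕ} (S : Finset (Fin N)) (a b : Fin N) (ha : a ∈ S) (hb : b ∉ S)
    (T : Finset (Fin N)) (hT : ¬ (a ∈ T ↔ b ∈ T)) :
    (-1 : ℝ) ^ (S ∩ T).card + (-1 : ℝ) ^ (S ∩ krwSw a b T).card = 0 := by
  have hab : a ≠ b := fun h => hb (h ▸ ha)
  by_cases h : a ∈ T
  · have hbT : b ∉ T := fun h' => hT ⟨fun _ => h', fun _ => h⟩
    have e1 : T = insert a (T.erase a) := (Finset.insert_erase h).symm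
    have e2 : krwSw a b T = insert b (T.erase a) := by
      ext x
      by_cases hxa : x = a
      · subst hxa
        rw [krw_a]
        simp [hbT, hab]
      · by_cases hxb : x = b
        · subst hxb
          rw [krw_b]
          simp [h]
        · rw [krw_o a b T x hxa hxb]
          simp [hxa, hxb]
    have e3 := krw_insert S (T.erase a) a (by simp)
    have e4 := krw_insert S (T.erase a) b (by simp [hbT])
    rw [← e1] at e3
    rw [← e2] at e4
    rw [e3, e4, if_pos ha, if_neg hb]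
    ring
  · have hbT : b ∈ T := by
      by_contra h'
      exact hT ⟨fun h1 => absurd h1 h, fun h1 => absurd h1 h'⟩
    have e1 : T = insert b (T.erase b) := (Finset.insert_erase hbT).symm
    have e2 : krwSw a b T = insert a (T.erase b) := by
      ext x
      by_cases hxa : x = a
      · subst hxa
        rw [krw_a]
        simp [hbT]
      · by_cases hxb : x = b
        · subst hxb
          rw [krw_b]
          simp [h, hab.symm]
        · rw [krw_o a b T x hxa hxb]
          simp [hxa, hxb]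
    have e3 := krw_insert S (T.erase b) b (by simp)
    have e4 := krw_insert S (T.erase b) a (by simp [h])
    rw [← e1] at e3
    rw [← e2] at e4
    rw [e3, e4, if_pos ha, if_neg hb]
    ring

theorem krw_zero {N : ℕ} (S : Finset (Fin N)) (a b : Fin N) (ha : a ∈ S) (hb : b ∉ S)
    (F : Finset (Finset (Fin N))) (hF : ∀ T ∈ F, krwSw a b T ∈ F)
    (hF2 : ∀ T ∈ F, ¬ (a ∈ T ↔ b ∈ T)) :
    ∑ T ∈ F, (-1 : ℝ) ^ (S ∩ T).card = 0 := by
  refine Finset.sum_involution (fun T _ => krwSw a b T) ?_ ?_ ?_ ?_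
  · intro T hT
    exact krw_flip S a b ha hb T (hF2 T hT)
  · intro T hT _ he
    apply hF2 T hT
    constructor
    · intro h
      rw [← he, krw_b]
      exact h
    · intro h
      rw [← he, krw_a]
      exact h
  · intro T hT
    exact hF T hT
  · intro T hT
    exact krw_inv a b T

/-- the four-element count -/
theorem krw_count {N r : ℕ} (k : ℕ) (hr : r = k + 1) (Q : Finset (Fin N))
    (F : Finset (Finset (Fin N)))
    (hF : ∀ T ∈ powersetCard r (univ : Finset (Fin N)), (T ∩ Q).card = 1 → T ∈ F) :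
    Q.card * (N - Q.card).choose k ≤ F.card := by
  have h1 : (Q ×ˢ powersetCard k (univ \ Q)).card = Q.card * (N - Q.card).choose k := by
    rw [Finset.card_product, Finset.card_powersetCard, Finset.card_sdiff_of_subset (by simp)]
    simp
  rw [← h1]
  refine Finset.card_le_card_of_injOn (fun p => insert p.1 p.2) ?_ ?_
  · rintro ⟨x, T⟩ hp
    simp only [Finset.coe_product, Set.mem_prod, Finset.mem_coe, Finset.mem_powersetCard] at hp
    obtain ⟨hx, hT, hc⟩ := hp
    have hxT : x ∉ T := by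
      intro h
      have := hT h
      simp [hx] at this
    refine hF _ ?_ ?_
    · rw [Finset.mem_powersetCard]
      refine ⟨by simp, ?_⟩
      rw [Finset.card_insert_of_notMem hxT, hc, hr]
    · have : insert x T ∩ Q = {x} := by
        ext y
        simp only [Finset.mem_inter, Finset.mem_insert, Finset.mem_singleton]
        constructor
        · rintro ⟨h | h, hQ⟩
          · exact h
          · have := hT h
            simp [hQ] at this
        · rintro rfl
          exact ⟨Or.inl rfl, hx⟩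
      show (insert x T ∩ Q).card = 1
      rw [this, Finset.card_singleton]
  · rintro ⟨x, T⟩ hp ⟨x', T'⟩ hp' he
    simp only [Finset.coe_product, Set.mem_prod, Finset.mem_coe, Finset.mem_powersetCard] at hp hp'
    obtain ⟨hx, hT, hc⟩ := hp
    obtain ⟨hx', hT', hc'⟩ := hp'
    have he' : insert x T = insert x' T' := he
    have hxx : x = x' := by
      have h : x ∈ insert x' T' := by rw [← he']; simp
      rcases Finset.mem_insert.1 h with h | h
      · exact h
      · have := hT' h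
        simp [hx] at this
    subst hxx
    have hTT : T = T' := by
      ext y
      by_cases hy : y = x
      · subst hy
        constructor
        · intro h
          have := hT h
          simp [hx] at this
        · intro h
          have := hT' h
          simp [hx] at this
      · constructor
        · intro h
          have h2 : y ∈ insert x T' := by rw [← he']; simp [h]
          rcases Finset.mem_insert.1 h2 with h3 | h3
          · exact absurd h3 hy
          · exact h3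
        · intro h
          have h2 : y ∈ insert x T := by rw [he']; simp [h]
          rcases Finset.mem_insert.1 h2 with h3 | h3
          · exact absurd h3 hy
          · exact h3
    rw [hTT]

theorem krw_num (M k : ℕ) (h : 8 * (k + 1) ≤ M + 4) :
    ((M + 3).choose k : ℝ) ≤ 2 * (M.choose k : ℝ) := by
  have e1 := Nat.choose_mul_succ_eq M k
  have e2 := Nat.choose_mul_succ_eq (M + 1) k
  have e3 := Nat.choose_mul_succ_eq (M + 2) k
  have f1 : (M.choose k : ℝ) * (M + 1) = ((M + 1).choose k : ℝ) * (M + 1 - k) := by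
    have : ((M + 1 - k : ℕ) : ℝ) = (M : ℝ) + 1 - k := by
      rw [Nat.cast_sub (by omega)]; push_cast; ring
    rw [← this]
    exact_mod_cast e1
  have f2 : ((M + 1).choose k : ℝ) * (M + 2) = ((M + 2).choose k : ℝ) * (M + 2 - k) := by
    have : ((M + 1 + 1 - k : ℕ) : ℝ) = (M : ℝ) + 2 - k := by
      rw [Nat.cast_sub (by omega)]; push_cast; ring
    rw [← this]
    have e2' : (((M + 1).choose k * (M + 1 + 1) : ℕ) : ℝ) =
        (((M + 1 + 1).choose k * (M + 1 + 1 - k) : ℕ) : ℝ) := by exact_mod_cast e2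
    push_cast at e2' ⊢
    linarith
  have f3 : ((M + 2).choose k : ℝ) * (M + 3) = ((M + 3).choose k : ℝ) * (M + 3 - k) := by
    have : ((M + 2 + 1 - k : ℕ) : ℝ) = (M : ℝ) + 3 - k := by
      rw [Nat.cast_sub (by omega)]; push_cast; ring
    rw [← this]
    have e3' : (((M + 2).choose k * (M + 2 + 1) : ℕ) : ℝ) =
        (((M + 2 + 1).choose k * (M + 2 + 1 - k) : ℕ) : ℝ) := by exact_mod_cast e3
    push_cast at e3' ⊢
    linarith
  have hk : (8 : ℝ) * (k + 1) ≤ M + 4 := by exact_mod_cast h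
  have hk0 : (0 : ℝ) ≤ k := Nat.cast_nonneg k
  have hM : (0 : ℝ) < (M : ℝ) := by linarith
  have c0 : (0 : ℝ) ≤ (M.choose k : ℝ) := Nat.cast_nonneg _
  have c1 : (0 : ℝ) ≤ ((M + 1).choose k : ℝ) := Nat.cast_nonneg _
  have c2 : (0 : ℝ) ≤ ((M + 2).choose k : ℝ) := Nat.cast_nonneg _
  have c3 : (0 : ℝ) ≤ ((M + 3).choose k : ℝ) := Nat.cast_nonneg _
  -- each ratio is at most 8 / 7
  have g1 : ((M + 1).choose k : ℝ) * 7 ≤ (M.choose k : ℝ) * 8 := by
    have h1 : ((M + 1).choose k : ℝ) * (7 / 8 * (M + 1)) ≤ ((M + 1).choose k : ℝ) * (M + 1 - k) :=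
      mul_le_mul_of_nonneg_left (by linarith) c1
    have h2 : ((M + 1).choose k : ℝ) * (7 / 8) * (M + 1) ≤ (M.choose k : ℝ) * (M + 1) := by
      linarith
    have h3 := le_of_mul_le_mul_right h2 (by linarith)
    linarith
  have g2 : ((M + 2).choose k : ℝ) * 7 ≤ ((M + 1).choose k : ℝ) * 8 := by
    have h1 : ((M + 2).choose k : ℝ) * (7 / 8 * (M + 2)) ≤ ((M + 2).choose k : ℝ) * (M + 2 - k) :=
      mul_le_mul_of_nonneg_left (by linarith) c2
    have h2 : ((M + 2).choose k : ℝ) * (7 / 8) * (M + 2) ≤ ((M + 1).choose k : ℝ) * (M + 2) := by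
      linarith
    have h3 := le_of_mul_le_mul_right h2 (by linarith)
    linarith
  have g3 : ((M + 3).choose k : ℝ) * 7 ≤ ((M + 2).choose k : ℝ) * 8 := by
    have h1 : ((M + 3).choose k : ℝ) * (7 / 8 * (M + 3)) ≤ ((M + 3).choose k : ℝ) * (M + 3 - k) :=
      mul_le_mul_of_nonneg_left (by linarith) c3
    have h2 : ((M + 3).choose k : ℝ) * (7 / 8) * (M + 3) ≤ ((M + 2).choose k : ℝ) * (M + 3) := by
      linarith
    have h3 := le_of_mul_le_mul_right h2 (by linarith)
    linarith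
  linarith

theorem st_KRW : ST_KRW := by
  intro N r hr1 h8 S hS2 hSN
  classical
  obtain ⟨k, rfl⟩ : ∃ k, r = k + 1 := ⟨r - 1, by omega⟩
  obtain ⟨M, rfl⟩ : ∃ M, N = M + 4 := ⟨N - 4, by omega⟩
  obtain ⟨a1, ha1, a2, ha2, ha⟩ := Finset.one_lt_card.1 (by omega : 1 < S.card)
  have hSc : 1 < Sᶜ.card := by
    rw [Finset.card_compl, Fintype.card_fin]
    omega
  obtain ⟨b1, hb1, b2, hb2, hb⟩ := Finset.one_lt_card.1 hSc
  rw [Finset.mem_compl] at hb1 hb2
  have h11 : a1 ≠ b1 := fun h => hb1 (h ▸ ha1)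
  have h12 : a1 ≠ b2 := fun h => hb2 (h ▸ ha1)
  have h21 : a2 ≠ b1 := fun h => hb1 (h ▸ ha2)
  have h22 : a2 ≠ b2 := fun h => hb2 (h ▸ ha2)
  set U := powersetCard (k + 1) (univ : Finset (Fin (M + 4))) with hU
  have hUc : U.card = (M + 4).choose (k + 1) := by
    rw [hU, Finset.card_powersetCard]; simp
  have hUm : ∀ T, T ∈ U ↔ T.card = k + 1 := by
    intro T; rw [hU, Finset.mem_powersetCard]; simp
  set F0 := U.filter (fun T => (a1 ∈ T ↔ b1 ∈ T) ∧ (a2 ∈ T ↔ b2 ∈ T)) with hF0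
  set F1 := U.filter (fun T => ¬ ((a1 ∈ T ↔ b1 ∈ T) ∧ (a2 ∈ T ↔ b2 ∈ T))) with hF1
  have hs : ∑ T ∈ U, (-1 : ℝ) ^ (S ∩ T).card = ∑ T ∈ F0, (-1 : ℝ) ^ (S ∩ T).card +
      ∑ T ∈ F1, (-1 : ℝ) ^ (S ∩ T).card := by
    rw [hF0, hF1, Finset.sum_filter_add_sum_filter_not]
  have hs1 : ∑ T ∈ F1, (-1 : ℝ) ^ (S ∩ T).card = 0 := by
    rw [← Finset.sum_filter_add_sum_filter_not F1 (fun T => ¬ (a1 ∈ T ↔ b1 ∈ T))]
    have e1 : ∑ T ∈ F1.filter (fun T => ¬ (a1 ∈ T ↔ b1 ∈ T)), (-1 : ℝ) ^ (S ∩ T).card = 0 := by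
      refine krw_zero S a1 b1 ha1 hb1 _ ?_ ?_
      · intro T hT
        rw [Finset.mem_filter, hF1, Finset.mem_filter, hUm] at hT ⊢
        obtain ⟨⟨h1, h2⟩, h3⟩ := hT
        have h4 : ¬ (a1 ∈ krwSw a1 b1 T ↔ b1 ∈ krwSw a1 b1 T) := by
          rw [krw_a, krw_b]
          tauto
        exact ⟨⟨by rw [krw_card]; exact h1, fun h => h4 h.1⟩, h4⟩
      · intro T hT
        exact (Finset.mem_filter.1 hT).2
    have e2 : ∑ T ∈ F1.filter (fun T => ¬ ¬ (a1 ∈ T ↔ b1 ∈ T)), (-1 : ℝ) ^ (S ∩ T).card = 0 := by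
      refine krw_zero S a2 b2 ha2 hb2 _ ?_ ?_
      · intro T hT
        rw [Finset.mem_filter, hF1, Finset.mem_filter, hUm] at hT ⊢
        obtain ⟨⟨h1, h2⟩, h3⟩ := hT
        have h3' : a1 ∈ T ↔ b1 ∈ T := not_not.1 h3
        have h4 : ¬ (a2 ∈ T ↔ b2 ∈ T) := fun h => h2 ⟨h3', h⟩
        have h5 : ¬ (a2 ∈ krwSw a2 b2 T ↔ b2 ∈ krwSw a2 b2 T) := by
          rw [krw_a, krw_b]
          tauto
        have h6 : a1 ∈ krwSw a2 b2 T ↔ b1 ∈ krwSw a2 b2 T := by
          rw [krw_o a2 b2 T a1 ha h12, krw_o a2 b2 T b1 h21.symm hb]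
          exact h3'
        exact ⟨⟨by rw [krw_card]; exact h1, fun h => h5 h.2⟩, not_not.2 h6⟩
      · intro T hT
        rw [Finset.mem_filter, hF1, Finset.mem_filter] at hT
        obtain ⟨⟨h1, h2⟩, h3⟩ := hT
        exact fun h => h2 ⟨not_not.1 h3, h⟩
    rw [e1, e2, add_zero]
  have hs0 : |∑ T ∈ F0, (-1 : ℝ) ^ (S ∩ T).card| ≤ (F0.card : ℝ) := by
    refine (Finset.abs_sum_le_sum_abs _ _).trans ?_
    have : ∀ T ∈ F0, |(-1 : ℝ) ^ (S ∩ T).card| = 1 := by
      intro T _
      rw [abs_pow, abs_neg, abs_one, one_pow]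
    rw [Finset.sum_congr rfl this]
    simp
  have hcc : F0.card + F1.card = (M + 4).choose (k + 1) := by
    rw [← hUc, hF0, hF1, Finset.card_filter_add_card_filter_not]
  have hQ : ({a1, a2, b1, b2} : Finset (Fin (M + 4))).card = 4 := by
    rw [Finset.card_insert_of_notMem (by simp [ha, h11, h12]),
      Finset.card_insert_of_notMem (by simp [h21, h22]),
      Finset.card_insert_of_notMem (by simp [hb]), Finset.card_singleton]
  have hcnt := krw_count (r := k + 1) k rfl ({a1, a2, b1, b2} : Finset (Fin (M + 4))) F1 (by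
    intro T hT hc
    rw [hF1, Finset.mem_filter]
    refine ⟨hT, ?_⟩
    rintro ⟨hA, hB⟩
    obtain ⟨x, hx⟩ := Finset.card_eq_one.1 hc
    have hxm : x ∈ T ∩ ({a1, a2, b1, b2} : Finset (Fin (M + 4))) := by rw [hx]; simp
    have huni : ∀ y ∈ T ∩ ({a1, a2, b1, b2} : Finset (Fin (M + 4))), y = x := by
      intro y hy
      rw [hx] at hy
      simpa using hy
    rw [Finset.mem_inter] at hxm
    have hm : ∀ y, y ∈ T → y ∈ ({a1, a2, b1, b2} : Finset (Fin (M + 4))) → y = x :=
      fun y h1 h2 => huni y (Finset.mem_inter.2 ⟨h1, h2⟩)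
    obtain ⟨hxT, hxQ⟩ := hxm
    simp only [Finset.mem_insert, Finset.mem_singleton] at hxQ
    rcases hxQ with rfl | rfl | rfl | rfl
    · exact h11 (hm b1 (hA.1 hxT) (by simp)).symm
    · exact h22 (hm b2 (hB.1 hxT) (by simp)).symm
    · exact h11 (hm a1 (hA.2 hxT) (by simp))
    · exact h22 (hm a2 (hB.2 hxT) (by simp)))
  rw [hQ] at hcnt
  have hcnt' : (4 : ℝ) * (M.choose k : ℝ) ≤ (F1.card : ℝ) := by
    have : 4 * M.choose k ≤ F1.card := by simpa using hcnt
    exact_mod_cast this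
  have hcc' : (F0.card : ℝ) + F1.card = ((M + 4).choose (k + 1) : ℝ) := by exact_mod_cast hcc
  have hnum := krw_num M k (by omega)
  have habs : ((M + 4).choose (k + 1) : ℝ) * ((k : ℝ) + 1) = ((M : ℝ) + 4) * ((M + 3).choose k : ℝ) := by
    have := Nat.add_one_mul_choose_eq (M + 3) k
    have h2 : (((M + 3 + 1) * (M + 3).choose k : ℕ) : ℝ) =
      (((M + 3 + 1).choose (k + 1) * (k + 1) : ℕ) : ℝ) := by exact_mod_cast this
    push_cast at h2
    have h3 : ((M + 3 + 1).choose (k + 1) : ℝ) = ((M + 4).choose (k + 1) : ℝ) := rfl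
    rw [h3] at h2
    linarith
  have hM4 : (0 : ℝ) < (M : ℝ) + 4 := by positivity
  have hfin : ((M + 4).choose (k + 1) : ℝ) * (1 - 2 * (((k + 1 : ℕ) : ℝ)) / ((M + 4 : ℕ) : ℝ)) =
      ((M + 4).choose (k + 1) : ℝ) - 2 * ((M + 3).choose k : ℝ) := by
    push_cast
    have : ((M + 4).choose (k + 1) : ℝ) * (2 * ((k : ℝ) + 1) / ((M : ℝ) + 4)) =
        2 * ((M + 3).choose k : ℝ) := by
      rw [mul_div_assoc', div_eq_iff hM4.ne']
      linarith
    rw [mul_sub, mul_one, this]
  rw [hs, hs1, add_zero, hfin]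
  refine hs0.trans ?_
  linarith

end Pool.Agent.Helper14.FO
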