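import Pool.Agent.Helper14.FO.Defs2

/-! MP_190084_co, second part: nodes for the fractional chromatic number. -/

set_option autoImplicit false

namespace Pool.Agent.Helper14.FO

open Finset

theorem ndc_cert_mono {V : Type} [Fintype V] [DecidableEq V] {X : SimpleGraph V} {M M' : ℝ}
    (h : M ≤ M') (hc : Cert X M) : Cert X M' := by
  obtain ⟨A, h1, h2, h3, h4⟩ := hc
  refine ⟨A, h1, h2, ?_, h4⟩
  have e : A + M' • (1 : Matrix V V ℝ) = (A + M • (1 : Matrix V V ℝ)) +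
      (M' - M) • (1 : Matrix V V ℝ) := by
    rw [sub_smul]; abel
  rw [e]
  exact h3.add (Matrix.PosSemidef.one.smul (sub_nonneg.mpr h))

theorem ndc_upT {V W : Type} {X : SimpleGraph V} {Y : SimpleGraph W} (f : V → W)
    (hf : ∀ a b, X.Adj a b → Y.Adj (f a) (f b)) {θ : ℝ} (h : UpT Y θ) : UpT X θ := by
  obtain ⟨d, v, h1, h2⟩ := h
  exact ⟨d, fun x => v (f x), fun x => h1 _, fun x y hxy => h2 _ _ (hf _ _ hxy)⟩

theorem ndc_upW {V W : Type} {X : SimpleGraph V} {Y : SimpleGraph W} (f : V → W)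
    (hf : ∀ a b, X.Adj a b → Y.Adj (f a) (f b)) {χ : ℝ} (h : UpC Y χ) : UpW X χ := by
  classical
  obtain ⟨J, hJ, hne, I, h1, h2⟩ := h
  have hc : (0 : ℝ) < Fintype.card J := by exact_mod_cast Fintype.card_pos
  refine ⟨J, hJ, fun _ => 1 / (Fintype.card J : ℝ), fun j x => decide (f x ∈ I j), ?_, ?_, ?_, ?_⟩
  · intro j
    positivity
  · rw [Finset.sum_const, Finset.card_univ, nsmul_eq_mul]
    field_simp
  · intro j x y hx hy hxy
    exact h1 j _ (of_decide_eq_true hx) _ (of_decide_eq_true hy) (hf _ _ hxy)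
  · intro x
    have e1 : (Set.ncard {j | f x ∈ I j} : ℝ) = ∑ j, if f x ∈ I j then (1 : ℝ) else 0 := by
      rw [Finset.sum_boole]
      congr 1
      rw [← Set.ncard_coe_finset]
      congr 1
      ext j
      simp
    have e2 : (∑ j, if decide (f x ∈ I j) = true then 1 / (Fintype.card J : ℝ) else 0) =
        (∑ j, if f x ∈ I j then (1 : ℝ) else 0) / Fintype.card J := by
      rw [Finset.sum_div]
      apply Finset.sum_congr rfl
      intro j _
      by_cases hj : f x ∈ I j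
      · simp [hj]
      · simp [hj]
    have h3 := h2 (f x)
    rw [e1] at h3
    rw [e2, ← mul_div_assoc, le_div_iff₀ hc, one_mul]
    exact h3

theorem ndc_xp_mono {V : Type} {X : SimpleGraph V} {ρ : V → ℝ} {c c' : ℝ} (hρ : ∀ x, 0 ≤ ρ x)
    (h : c' ≤ c) (hx : XP X ρ c) : XP X ρ c' := by
  intro I hI N hN
  refine le_trans ?_ (hx I hI N hN)
  exact mul_le_mul_of_nonneg_right h (Finset.sum_nonneg fun x _ => hρ x)

theorem ndc_ti (p q : ℕ) {G : Type} [AddCommGroup G] {R : SimpleGraph G} (h : TI R) :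
    TI (Ten (KC p q) R) := by
  intro a b g
  have e1 : (KC p q).Adj (a.1 + g.1) (b.1 + g.1) ↔ (KC p q).Adj a.1 b.1 := by
    show (a.1 + g.1 ≠ b.1 + g.1 ∧ q ≤ (a.1 + g.1 - (b.1 + g.1)).val ∧
      q ≤ (b.1 + g.1 - (a.1 + g.1)).val) ↔ (a.1 ≠ b.1 ∧ q ≤ (a.1 - b.1).val ∧ q ≤ (b.1 - a.1).val)
    rw [add_sub_add_right_eq_sub, add_sub_add_right_eq_sub, ne_eq, add_left_inj]
  exact and_congr e1 (h a.2 b.2 g.2)

/-- the weighted graph of a node -/
noncomputable def ndcG (Y : GW) {C : ℕ} (X : RD C) (p q : ℕ) [NeZero p] : GW where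
  V := Y.V × (ZMod p × X.G)
  fin := inferInstance
  dec := inferInstance
  X := Ten Y.X (Ten (KC p q) X.R)
  ρ := PW Y.ρ (UW (ZMod p × X.G))
  pos := fun x => by
    have h1 := Y.pos x.1
    have h2 : (0 : ℝ) < Fintype.card (ZMod p × X.G) := by exact_mod_cast Fintype.card_pos
    exact mul_pos h1 (one_div_pos.mpr h2)
  one := by
    have h2 : (0 : ℝ) < Fintype.card (ZMod p × X.G) := by exact_mod_cast Fintype.card_pos
    rw [Fintype.sum_prod_type]
    have e : ∀ a : Y.V, ∑ b : ZMod p × X.G, PW Y.ρ (UW (ZMod p × X.G)) (a, b) = Y.ρ a := by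
      intro a
      have : ∀ b : ZMod p × X.G, PW Y.ρ (UW (ZMod p × X.G)) (a, b) =
          Y.ρ a * (1 / (Fintype.card (ZMod p × X.G) : ℝ)) := fun b => rfl
      rw [Finset.sum_congr rfl fun b _ => this b, Finset.sum_const, Finset.card_univ,
        nsmul_eq_mul]
      field_simp
    rw [Finset.sum_congr rfl fun a _ => e a]
    exact Y.one

theorem ndc_node (h7 : ST_TEN) (h8 : ST_TE2b) (h8c : ST_TE2c) (h8d : ST_TE2d) (h9 : ST_GR2)
    (h10 : ST_ZHU) (h11 : ST_XPT) (h12 : ST_CCT) (h13 : ST_KUP) (Y : GW) (M c : ℝ)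
    (hYM : FC Y.X Y.ρ M) (hYc : XP Y.X Y.ρ c) {C : ℕ} (X : RD C) (hMX : M ≤ X.M)
    (p q : ℕ) [NeZero p] (hq : 0 < q) (h2 : 2 * q ≤ p) (hC : p ≤ C * q) (hc : (p : ℝ) / q ≤ c)
    (hcert : Cert (KC p q) X.M) :
    UpT (ndcG Y X p q).X (1 + 1 / X.M) ∧ UpW (ndcG Y X p q).X ((p : ℝ) / q) ∧
    LowTw (ndcG Y X p q).X (ndcG Y X p q).ρ (1 + 1 / X.M) ∧
    LowCw (ndcG Y X p q).X (ndcG Y X p q).ρ ((p : ℝ) / q) := by
  have hq0 : (0 : ℝ) < q := by exact_mod_cast hq
  have hcard : (Fintype.card (ZMod p × X.G) : ℕ) = p * Fintype.card X.G := by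
    rw [Fintype.card_prod, ZMod.card]
  have hpos : (0 : ℝ) < Fintype.card (ZMod p × X.G) := by exact_mod_cast Fintype.card_pos
  have hUW : ∀ y, 0 ≤ UW (ZMod p × X.G) y := fun y => (one_div_pos.mpr hpos).le
  have hUW1 : ∑ y, UW (ZMod p × X.G) y = 1 := by
    have : ∀ b : ZMod p × X.G, UW (ZMod p × X.G) b =
        (1 / (Fintype.card (ZMod p × X.G) : ℝ)) := fun b => rfl
    rw [Finset.sum_congr rfl fun b _ => this b, Finset.sum_const, Finset.card_univ,
      nsmul_eq_mul]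
    field_simp
  refine ⟨?_, ?_, ?_, ?_⟩
  · exact ndc_upT (X := Ten Y.X (Ten (KC p q) X.R)) (fun x => x.2.2) (fun a b h => h.2.2) X.upt
  · exact ndc_upW (X := Ten Y.X (Ten (KC p q) X.R)) (fun x => x.2.1) (fun a b h => h.2.1)
      (h13 p q hq h2)
  · apply h9 (Y.V × (ZMod p × X.G)) (Ten Y.X (Ten (KC p q) X.R))
      (PW Y.ρ (UW (ZMod p × X.G))) X.M X.lo (ndcG Y X p q).pos (ndcG Y X p q).one
    apply h8 _ _ _ _ _ _ _ X.lo.le X.hi.le
    · exact h8c _ _ _ _ _ (fun x => (Y.pos x).le) hMX hYM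
    · exact h8d _ _ _ (h7 _ _ _ _ _ X.lo.le X.hi.le hcert X.cert)
  · apply h10 Y.V (ZMod p × X.G) Y.X (Ten (KC p q) X.R) Y.ρ (UW (ZMod p × X.G)) ((p : ℝ) / q)
      (fun x => (Y.pos x).le) hUW Y.one hUW1
    · exact ndc_xp_mono (fun x => (Y.pos x).le) hc hYc
    · apply h11 (ZMod p × X.G) (Ten (KC p q) X.R) (ndc_ti p q X.ti) ((p : ℝ) / q) (by positivity)
      intro I hI
      have a1 := h12 p q hq h2 X.G X.R X.ti (by
        intro L hL
        have b1 := (X.ind L hL).le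
        calc p * L.card ≤ C * q * L.card := Nat.mul_le_mul_right _ hC
          _ = q * (C * L.card) := by ring
          _ ≤ q * Fintype.card X.G := Nat.mul_le_mul_left _ b1) I hI
      have a2 : (I.card : ℝ) ≤ q * Fintype.card X.G := by exact_mod_cast a1
      rw [hcard, div_mul_eq_mul_div, div_le_iff₀ hq0]
      push_cast
      have a3 : (0 : ℝ) ≤ p := Nat.cast_nonneg p
      nlinarith

theorem ndc_x1 {m : ℕ} (hm : 3 ≤ m) : 1 - 2 / (m : ℝ) ^ 2 < 1 := by
  have h3 : (3 : ℝ) ≤ m := by exact_mod_cast hm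
  have h2 : 0 < 2 / (m : ℝ) ^ 2 := by positivity
  linarith

theorem st_NDC (h1 : ST_TR2) (h2 : ST_RT2) (h3 : ST_NX2) (h4 : ST_DENK) (h5 : ST_SPC)
    (h6 : ST_KHOM) (h7 : ST_TEN) (h8 : ST_TE2b) (h8c : ST_TE2c) (h8d : ST_TE2d) (h9 : ST_GR2)
    (h10 : ST_ZHU) (h11 : ST_XPT) (h12 : ST_CCT) (h13 : ST_KUP) : ST_NDC := by
  intro Y M c0 hM0 hM1 hYM hYc y0 y1 κ hy0 hy01 hyc hκ
  -- the odd number `m`
  obtain ⟨k, hk⟩ := exists_nat_gt (1 / (y0 - 2))
  have he0 : 0 < y0 - 2 := by linarith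
  have hk0 : (0 : ℝ) < k := lt_trans (by positivity) hk
  have hk1 : 1 ≤ k := by
    have : 0 < k := by exact_mod_cast hk0
    omega
  obtain ⟨m, hm⟩ : ∃ m : ℕ, m = 2 * k + 1 := ⟨_, rfl⟩
  have hm3 : 3 ≤ m := by omega
  have hmodd : Odd m := ⟨k, hm⟩
  have hmR : (m : ℝ) = 2 * k + 1 := by rw [hm]; push_cast; ring
  have hm1 : 0 < (m : ℝ) - 1 := by rw [hmR]; linarith
  have hre : 2 * (m : ℝ) / (m - 1) < y0 := by
    rw [div_lt_iff₀ hm1, hmR]
    have : 1 < k * (y0 - 2) := by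
      rw [div_lt_iff₀ he0] at hk
      exact hk
    nlinarith
  have c2 := ndc_x1 hm3
  obtain ⟨c, hc⟩ : ∃ c : ℝ, c = max M (1 - 2 / (m : ℝ) ^ 2) := ⟨_, rfl⟩
  have hcM : M ≤ c := by rw [hc]; exact le_max_left _ _
  have hcm : 1 - 2 / (m : ℝ) ^ 2 ≤ c := by rw [hc]; exact le_max_right _ _
  have hc1 : c < 1 := by rw [hc]; exact max_lt hM1 c2
  have cp : 0 < c := by linarith
  have hcinv : 1 < 1 / c := by
    rw [lt_div_iff₀ cp]; linarith
  obtain ⟨C, hC⟩ := exists_nat_ge y1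
  -- the tree
  have hx01 : Real.log 2 < Real.log (1 + 1 / c) := Real.log_lt_log (by norm_num) (by linarith)
  have hy01' : Real.log y0 < Real.log y1 := Real.log_lt_log (by linarith) hy01
  obtain ⟨tx, ty, η, hη, hbox, hch, hconv⟩ := h1 _ _ _ _ κ hx01 hy01' hκ
  -- intervals
  have ex1 : ∀ w, 2 < Real.exp (tx w - η w.length) := by
    intro w
    rw [← Real.log_lt_iff_lt_exp (by norm_num)]
    exact (hbox w).1
  have ex2 : ∀ w, Real.exp (tx w + η w.length) < 1 + 1 / c := by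
    intro w
    rw [← Real.lt_log_iff_exp_lt (by linarith)]
    exact (hbox w).2.1
  have ex3 : ∀ w, Real.exp (tx w - η w.length) < Real.exp (tx w + η w.length) := by
    intro w
    have := hη w.length
    exact Real.exp_lt_exp.mpr (by linarith)
  obtain ⟨lo, hlo⟩ : ∃ lo : List Bool → ℝ, ∀ w, lo w = 1 / (Real.exp (tx w + η w.length) - 1) :=
    ⟨_, fun _ => rfl⟩
  obtain ⟨hi, hhi⟩ : ∃ hi : List Bool → ℝ, ∀ w, hi w = 1 / (Real.exp (tx w - η w.length) - 1) :=
    ⟨_, fun _ => rfl⟩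
  have l1 : ∀ w, c < lo w := by
    intro w
    rw [hlo, lt_div_iff₀ (by linarith [ex1 w, ex3 w])]
    have a := ex2 w
    have a2 : c * (1 / c) = 1 := by field_simp
    nlinarith
  have l2 : ∀ w, lo w < hi w := by
    intro w
    rw [hlo, hhi]
    exact one_div_lt_one_div_of_lt (by linarith [ex1 w]) (by linarith [ex3 w])
  have l3 : ∀ w, hi w < 1 := by
    intro w
    rw [hhi, div_lt_one (by linarith [ex1 w])]
    linarith [ex1 w]
  have l4 : ∀ w b, hi w < lo (b :: w) := by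
    intro w b
    rw [hlo, hhi]
    apply one_div_lt_one_div_of_lt
    · linarith [ex1 (b :: w), ex3 (b :: w)]
    · have := Real.exp_lt_exp.mpr (hch w b).1
      rw [List.length_cons]
      linarith
  -- the nodes
  obtain ⟨X0, hX0⟩ := h2 C (lo []) (hi []) (by linarith [l1 []]) (l2 []) (l3 []).le
  have step : ∀ (w : List Bool) (b : Bool) (X : {X : RD C // lo w < X.M ∧ X.M < hi w}),
      ∃ X' : {X : RD C // lo (b :: w) < X.M ∧ X.M < hi (b :: w)},
        ∃ φ : X'.1.G → X.1.G, ∀ x y, X'.1.R.Adj x y → X.1.R.Adj (φ x) (φ y) := by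
    intro w b X
    obtain ⟨X', a1, a2, a3⟩ := h3 C X.1 (lo (b :: w)) (hi (b :: w))
      (by linarith [X.2.2, l4 w b]) (l2 _) (l3 _).le
    exact ⟨⟨X', a1, a2⟩, a3⟩
  choose nx hnx using step
  obtain ⟨nX, nX0, nX1⟩ : ∃ nX : ∀ w : List Bool, {X : RD C // lo w < X.M ∧ X.M < hi w},
      nX [] = ⟨X0, hX0⟩ ∧ ∀ b w, nX (b :: w) = nx w b (nX w) :=
    ⟨fun w => List.rec (motive := fun w => {X : RD C // lo w < X.M ∧ X.M < hi w}) ⟨X0, hX0⟩
      (fun b w X => nx w b X) w, rfl, fun _ _ => rfl⟩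
  -- the circular cliques
  have ey1 : ∀ w, y0 < Real.exp (ty w - η w.length) := by
    intro w
    rw [← Real.log_lt_iff_lt_exp (by linarith)]
    exact (hbox w).2.2.1
  have ey2 : ∀ w, Real.exp (ty w + η w.length) < y1 := by
    intro w
    rw [← Real.lt_log_iff_exp_lt (by linarith)]
    exact (hbox w).2.2.2
  have hpq : ∀ w : List Bool, ∃ pq : ℕ × ℕ, m ∣ pq.1 ∧ 0 < pq.2 ∧ 0 < pq.1 ∧
      Real.exp (ty w - η w.length) < (pq.1 : ℝ) / pq.2 ∧
      (pq.1 : ℝ) / pq.2 < Real.exp (ty w + η w.length) := by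
    intro w
    have := hη w.length
    obtain ⟨p, q, a1, a2, a3, a4, a5⟩ := h4 m (by omega) (Real.exp (ty w - η w.length))
      (Real.exp (ty w + η w.length)) (by linarith [ey1 w])
      (Real.exp_lt_exp.mpr (by linarith))
    exact ⟨(p, q), a1, a2, a3, a4, a5⟩
  choose pq hp1 hp2 hp3 hp4 hp5 using hpq
  have hq0 : ∀ w, (0 : ℝ) < (pq w).2 := fun w => by exact_mod_cast hp2 w
  have hr0 : ∀ w, y0 < ((pq w).1 : ℝ) / (pq w).2 := fun w => by linarith [ey1 w, hp4 w]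
  have hr1 : ∀ w, 2 * (pq w).2 ≤ (pq w).1 := by
    intro w
    have a1 : 2 < ((pq w).1 : ℝ) / (pq w).2 := by linarith [hr0 w]
    rw [lt_div_iff₀ (hq0 w)] at a1
    exact_mod_cast a1.le
  have hr2 : ∀ w, ((pq w).1 : ℝ) / (pq w).2 ≤ c0 := fun w => by linarith [ey2 w, hp5 w]
  have hr3 : ∀ w, (pq w).1 ≤ C * (pq w).2 := by
    intro w
    have a1 : ((pq w).1 : ℝ) / (pq w).2 < C := by linarith [ey2 w, hp5 w]
    rw [div_lt_iff₀ (hq0 w)] at a1
    exact_mod_cast a1.le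
  have hMX : ∀ w, c ≤ (nX w).1.M := fun w => by linarith [l1 w, (nX w).2.1]
  have hcert : ∀ w, ∀ _ : NeZero (pq w).1, Cert (KC (pq w).1 (pq w).2) (nX w).1.M := by
    intro w inst
    refine ndc_cert_mono (M := 1 - 2 / (m : ℝ) ^ 2) (by linarith [hMX w]) ?_
    refine h5 m (pq w).1 (pq w).2 hmodd hm3 (hp1 w) (hp2 w) ?_
    have a1 : 2 * (m : ℝ) / (m - 1) < ((pq w).1 : ℝ) / (pq w).2 := by linarith [hr0 w]
    rw [div_lt_div_iff₀ hm1 (hq0 w)] at a1
    have a2 : ((2 * m * (pq w).2 : ℕ) : ℝ) ≤ (((pq w).1 * (m - 1) : ℕ) : ℝ) := by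
      rw [Nat.cast_mul, Nat.cast_mul, Nat.cast_mul, Nat.cast_sub (by omega)]
      push_cast
      linarith
    exact_mod_cast a2
  obtain ⟨nd, hnθ, hnχ, hnc, hnY, hnn⟩ : ∃ nd : List Bool → Nd,
      (∀ w, (nd w).θ = 1 + 1 / (nX w).1.M) ∧ (∀ w, (nd w).χ = ((pq w).1 : ℝ) / (pq w).2) ∧
      (∀ w, (nd w).c = ((pq w).1 : ℝ) / (pq w).2) ∧ (∀ w, HomTo (nd w).X Y.X) ∧
      ∀ w b, HomTo (nd (b :: w)).X (nd w).X := by
    have inst : ∀ w, NeZero (pq w).1 := fun w => ⟨(hp3 w).ne'⟩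
    have hN := fun w => ndc_node h7 h8 h8c h8d h9 h10 h11 h12 h13 Y M c0 hYM hYc (nX w).1
      (by linarith [hMX w]) (pq w).1 (pq w).2 (hp2 w) (hr1 w) (hr3 w) (hr2 w)
      (hcert w (inst w))
    refine ⟨fun w => { toGW := ndcG Y (nX w).1 (pq w).1 (pq w).2, θ := 1 + 1 / (nX w).1.M,
                       χ := ((pq w).1 : ℝ) / (pq w).2, c := ((pq w).1 : ℝ) / (pq w).2,
                       upT := (hN w).1, upW := (hN w).2.1, lowT := (hN w).2.2.1,
                       lowC := (hN w).2.2.2 },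
      fun _ => rfl, fun _ => rfl, fun _ => rfl, fun w => ?_, fun w b => ?_⟩
    · exact ⟨fun x => x.1, fun x y hxy => hxy.1⟩
    · obtain ⟨φ1, hφ1⟩ := h6 (pq (b :: w)).1 (pq (b :: w)).2 (pq w).1 (pq w).2 (hp2 (b :: w))
        (hp2 w) (by
          have a1 := Real.exp_lt_exp.mpr (hch w b).2
          have a2 := hp5 (b :: w)
          rw [List.length_cons] at a2
          have a3 : ((pq (b :: w)).1 : ℝ) / (pq (b :: w)).2 < ((pq w).1 : ℝ) / (pq w).2 := by
            linarith [hp4 w]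
          rw [div_lt_div_iff₀ (hq0 _) (hq0 _)] at a3
          exact_mod_cast a3.le)
      have hX : ∃ φ : (nX (b :: w)).1.G → (nX w).1.G, ∀ x y, (nX (b :: w)).1.R.Adj x y →
          (nX w).1.R.Adj (φ x) (φ y) := by
        rw [nX1]
        exact hnx w b (nX w)
      obtain ⟨φ2, hφ2⟩ := hX
      exact ⟨fun x => (x.1, (φ1 x.2.1, φ2 x.2.2)),
        fun x y hxy => ⟨hxy.1, hφ1 _ _ hxy.2.1, hφ2 _ _ hxy.2.2⟩⟩
  refine ⟨nd, hnY, hnn, ?_, ?_⟩
  · intro w
    rw [hnθ, hnχ, hnc]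
    have a0 := (nX w).1.lo
    have a1 : 0 < 1 / (nX w).1.M := by positivity
    exact ⟨by linarith, hr0 w, hr0 w⟩
  · have hF : ∀ w, |Real.log (nd w).θ - tx w| < η w.length := by
      intro w
      rw [hnθ]
      have a1 := (nX w).2.1
      have a2 := (nX w).2.2
      obtain ⟨M', hM'⟩ : ∃ M' : ℝ, M' = (nX w).1.M := ⟨_, rfl⟩
      rw [← hM'] at a1 a2 ⊢
      have a0 : 0 < M' := by linarith [l1 w]
      rw [hlo] at a1
      rw [hhi] at a2
      have b1 : 0 < Real.exp (tx w + η w.length) - 1 := by linarith [ex1 w, ex3 w]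
      have b2 : 0 < Real.exp (tx w - η w.length) - 1 := by linarith [ex1 w]
      have b3 : 1 / M' < Real.exp (tx w + η w.length) - 1 := by
        rw [div_lt_iff₀ b1] at a1
        rw [div_lt_iff₀ a0]
        linarith
      have b4 : Real.exp (tx w - η w.length) - 1 < 1 / M' := by
        rw [lt_div_iff₀ b2] at a2
        rw [lt_div_iff₀ a0]
        linarith
      rw [abs_lt]
      constructor
      · have : tx w - η w.length < Real.log (1 + 1 / M') := by
          rw [Real.lt_log_iff_exp_lt (by positivity)]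
          linarith
        linarith
      · have : Real.log (1 + 1 / M') < tx w + η w.length := by
          rw [Real.log_lt_iff_lt_exp (by positivity)]
          linarith
        linarith
    have hH : ∀ w, |Real.log (((pq w).1 : ℝ) / (pq w).2) - ty w| < η w.length := by
      intro w
      have a0 : (0 : ℝ) < ((pq w).1 : ℝ) / (pq w).2 := by linarith [hr0 w]
      rw [abs_lt]
      constructor
      · have : ty w - η w.length < Real.log (((pq w).1 : ℝ) / (pq w).2) := by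
          rw [Real.lt_log_iff_exp_lt a0]
          exact hp4 w
        linarith
      · have : Real.log (((pq w).1 : ℝ) / (pq w).2) < ty w + η w.length := by
          rw [Real.log_lt_iff_lt_exp a0]
          exact hp5 w
        linarith
    intro a
    obtain ⟨l, b1, b2, b3⟩ := hconv (fun w => Real.log (nd w).θ)
      (fun w => Real.log (((pq w).1 : ℝ) / (pq w).2)) hF hH a
    refine ⟨l, b1, b2, fun b hb => ?_⟩
    rw [hnχ, hnc]
    exact b3 b hb

end Pool.Agent.Helper14.FO
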